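import Pool.Agent.helper28.PV.SpecS

set_option autoImplicit false

open scoped Matrix Topology
open Filter

namespace Pool.Agent.PV

open Pool.Agent.CZ

theorem HK0 (hMS0 : MS0_stmt) (hHEM : HEM_stmt) (hKS : KS_stmt) (hKC : KC_stmt) (hFUN : FUN_stmt) :
    HK0_stmt := by
  intro z
  obtain ⟨x, y, hy, hz⟩ := (hMS0 ℕ ℂ C(HE, ℂ) C(UnitAddCircle, ℂ) (Algebra.ofId ℂ C(HE, ℂ))
    (fun k => pbC ℂ (inj k)) (fun k => pbC ℂ (pr k)) (el ℂ) hHEM).1 z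
  have hy0 : y = 0 := by
    ext k
    exact hKS.1 (y k) (hy k)
  obtain ⟨n, hn⟩ := hKC.1 x
  refine ⟨n, ?_⟩
  rw [hz, hy0, Finsupp.sum_zero_index, add_zero, hn, map_zsmul, hFUN.2.2.1]

end Pool.Agent.PV
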