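import Pool.Agent.helper45.PV.SpecG

set_option autoImplicit false

open scoped Matrix Topology

namespace Pool.Agent.PV

open Pool.Agent.CZ

/-- the projection on the first half -/
def KR1_P (R : Type) [Ring R] (n : ℕ) : Matrix (Fin n ⊕ Fin n) (Fin n ⊕ Fin n) R :=
  Matrix.fromBlocks 1 0 0 0

theorem KR1_PP (R : Type) [Ring R] (n : ℕ) : KR1_P R n * KR1_P R n = KR1_P R n := by
  unfold KR1_P
  rw [Matrix.fromBlocks_multiply]
  simp

theorem KR1_Pmap {R S : Type} [Ring R] [Ring S] (f : R →+* S) (n : ℕ) :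
    (KR1_P R n).map f = KR1_P S n := by
  unfold KR1_P
  rw [Matrix.fromBlocks_map, Matrix.map_one _ (map_zero f) (map_one f), Matrix.map_zero _ (map_zero f)]

section

variable {R S : Type} [Ring R] [Algebra ℂ R] [Ring S] [Algebra ℂ S]

theorem KR1_Pa (f : R →ₐ[ℂ] S) (n : ℕ) : (KR1_P R n).map f = KR1_P S n := KR1_Pmap f.toRingHom n

theorem KR1_mm {ι : Type} [Fintype ι] (f : R →ₐ[ℂ] S) (A B : Matrix ι ι R) :
    (A * B).map f = A.map f * B.map f := by
  have h : (A * B).map f.toRingHom = A.map f.toRingHom * B.map f.toRingHom := Matrix.map_mul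
  exact h

theorem KR1_one {ι : Type} [Fintype ι] [DecidableEq ι] (f : R →ₐ[ℂ] S) :
    (1 : Matrix ι ι R).map f = 1 := Matrix.map_one _ (map_zero f) (map_one f)

end

theorem KR1_k0P (hK0B : K0B_stmt) (A : Type) [Ring A] (n : ℕ) (h : KR1_P A n * KR1_P A n = KR1_P A n) :
    k0 (KR1_P A n) h = n • unitCls A := by
  have h1 := hK0B.1 A (Fin n) (Fin n) 1 0 (by simp) (by simp) h
  have h2 := hK0B.2.1 A (Fin n) (by simp)
  have h3 := hK0B.2.2 A (Fin n) (by simp)
  rw [Fintype.card_fin] at h3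
  rw [h2, h3, add_zero] at h1
  exact h1

theorem KR1_unit (hK0B : K0B_stmt) (hK1M : K1M_stmt) (D : Type) [NormedRing D] [NormedAlgebra ℂ D]
    (de : K0 C(UnitAddCircle, D) →+ K1 D) (hde : IsHol D de) : de (unitCls C(UnitAddCircle, D)) = 0 := by
  have h3 := hK0B.2.2 C(UnitAddCircle, D) (Fin 1) (by simp)
  rw [Fintype.card_fin, one_smul] at h3
  have hev : ∀ t, evM (1 : Matrix (Fin 1) (Fin 1) C(UnitAddCircle, D)) t = 1 := by
    intro t
    unfold evM
    refine Matrix.map_one _ rfl rfl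
  have h4 := hde (Fin 1) (1 : Matrix (Fin 1) (Fin 1) C(UnitAddCircle, D)) (by simp)
    (ContinuousMap.const _ 1) (ContinuousMap.const _ 1) 1
    ⟨by rw [hev]; rfl, fun s => by rw [hev]; exact one_mul _, fun s => by rw [hev]; exact one_mul _,
      fun s => by rw [hev]; exact one_mul _, fun s => by rw [hev]; exact one_mul _⟩
    (by
      rw [hev, sub_self, add_zero]
      rfl)
  rw [h3] at h4
  rw [h4]
  exact (hK1M D (Fin 1) 1 1).2.2.1

theorem KR1 (hFUN : FUN_stmt) (hK0E : K0E_stmt) (hK0B : K0B_stmt) (hK1M : K1M_stmt) (hK1B : K1B_stmt)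
    (hK1G : K1G_stmt) (hLFT : LFT_stmt) (hLPM : LPM_stmt) : KR1_stmt := by
  intro C D _ _ _ _ _ _ φ χ hφ hχ de hde y
  obtain ⟨n, u, rfl⟩ := hK1G C y
  obtain ⟨X, hXg, hX0⟩ := hLFT C D φ (Fin n) u
  -- the inverse of `X`
  set Xi : Matrix (Fin n ⊕ Fin n) (Fin n ⊕ Fin n) (MC φ) :=
    ((X⁻¹ : (Matrix (Fin n ⊕ Fin n) (Fin n ⊕ Fin n) (MC φ))ˣ) :
      Matrix (Fin n ⊕ Fin n) (Fin n ⊕ Fin n) (MC φ)) with hXi
  set Xm : Matrix (Fin n ⊕ Fin n) (Fin n ⊕ Fin n) (MC φ) :=
    (X : Matrix (Fin n ⊕ Fin n) (Fin n ⊕ Fin n) (MC φ)) with hXm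
  have hXX : Xm * Xi = 1 := Units.mul_inv X
  have hXX' : Xi * Xm = 1 := Units.inv_mul X
  have hs1 : ∀ s, Xm.map (pM φ s) * Xi.map (pM φ s) = 1 := by
    intro s
    rw [← KR1_mm, hXX, KR1_one]
  have hs2 : ∀ s, Xi.map (pM φ s) * Xm.map (pM φ s) = 1 := by
    intro s
    rw [← KR1_mm, hXX', KR1_one]
  have hXi0 : Xi.map (pM φ 0) = 1 := by
    have := hs1 0
    rw [hX0, one_mul] at this
    exact this
  have hug : (u : Matrix (Fin n) (Fin n) C) * ((u⁻¹ : (Matrix (Fin n) (Fin n) C)ˣ) : Matrix (Fin n) (Fin n) C) = 1 :=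
    Units.mul_inv u
  have hug' : ((u⁻¹ : (Matrix (Fin n) (Fin n) C)ˣ) : Matrix (Fin n) (Fin n) C) * (u : Matrix (Fin n) (Fin n) C) = 1 :=
    Units.inv_mul u
  have hXig : Xi.map (gM φ) = Matrix.fromBlocks
      ((u⁻¹ : (Matrix (Fin n) (Fin n) C)ˣ) : Matrix (Fin n) (Fin n) C) 0 0 (u : Matrix (Fin n) (Fin n) C) := by
    have h1 : Xi.map (gM φ) * Xm.map (gM φ) = 1 := by rw [← KR1_mm, hXX', KR1_one]
    have h2 : Xm.map (gM φ) * Matrix.fromBlocks
      ((u⁻¹ : (Matrix (Fin n) (Fin n) C)ˣ) : Matrix (Fin n) (Fin n) C) 0 0 (u : Matrix (Fin n) (Fin n) C) = 1 := by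
      rw [hXg, Matrix.fromBlocks_multiply, hug, hug']
      simp [Matrix.fromBlocks_one]
    calc Xi.map (gM φ) = Xi.map (gM φ) * (Xm.map (gM φ) * Matrix.fromBlocks
      ((u⁻¹ : (Matrix (Fin n) (Fin n) C)ˣ) : Matrix (Fin n) (Fin n) C) 0 0 (u : Matrix (Fin n) (Fin n) C)) := by
          rw [h2, mul_one]
      _ = _ := by rw [← mul_assoc, h1, one_mul]
  set P := KR1_P (MC φ) n with hP
  have hPP : P * P = P := KR1_PP (MC φ) n
  set E := Xm * P * Xi with hE
  have hEE : E * E = E := by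
    rw [hE]
    calc Xm * P * Xi * (Xm * P * Xi) = Xm * P * (Xi * Xm) * P * Xi := by simp only [mul_assoc]
      _ = Xm * (P * P) * Xi := by rw [hXX', mul_one, mul_assoc Xm P P]
      _ = _ := by rw [hPP]
  have hEs : ∀ s, E.map (pM φ s) = Xm.map (pM φ s) * KR1_P D n * Xi.map (pM φ s) := by
    intro s
    rw [hE, KR1_mm, KR1_mm, hP, KR1_Pa]
  have hE0 : E.map (pM φ 0) = (KR1_P ℂ n).map (algebraMap ℂ D) := by
    rw [hEs, hX0, hXi0, one_mul, mul_one, KR1_Pmap]
  have hEg : E.map (gM φ) = (KR1_P ℂ n).map (algebraMap ℂ C) := by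
    rw [hE, KR1_mm, KR1_mm, hP, KR1_Pa, hXg, hXig, KR1_Pmap]
    unfold KR1_P
    rw [Matrix.fromBlocks_multiply, Matrix.fromBlocks_multiply]
    simp [hug]
  have hE1 : E.map (pM φ 1) = (KR1_P ℂ n).map (algebraMap ℂ D) := by
    rw [(endM φ χ E).2, hEg, KR1_Pmap, KR1_Pmap]
    exact KR1_Pa φ n
  obtain ⟨F, hFj, hFe, hF0, hFF⟩ := hLPM C D φ χ (Fin n ⊕ Fin n) E (KR1_P ℂ n) hE0 hE1 hEg
  have hF : F * F = F := hFF hEE
  refine ⟨k0 F hF - n • unitCls (L1 D), ?_, ?_, ?_⟩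
  · -- the character
    rw [map_sub, map_nsmul, hFUN.2.2.1]
    have h1 : k0map (eL χ).toRingHom (k0 F hF) = k0 (KR1_P ℂ n) (KR1_PP ℂ n) := by
      have hm : F.map (eL χ).toRingHom * F.map (eL χ).toRingHom = F.map (eL χ).toRingHom := by
        rw [← Matrix.map_mul, hF]
      rw [k0map_k0 (eL χ).toRingHom F hF hm]
      have h2 : F.map (eL χ).toRingHom = KR1_P ℂ n := hFe
      simp only [h2]
    rw [h1, KR1_k0P hK0B, sub_self]
  · -- the mapping cone
    rw [map_sub, map_nsmul, hFUN.2.2.1]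
    have h1 : k0map (jm φ χ).toRingHom (k0 F hF) = k0 E hEE := by
      have hm : F.map (jm φ χ).toRingHom * F.map (jm φ χ).toRingHom = F.map (jm φ χ).toRingHom := by
        rw [← Matrix.map_mul, hF]
      rw [k0map_k0 (jm φ χ).toRingHom F hF hm]
      have h2 : F.map (jm φ χ).toRingHom = E := hFj
      simp only [h2]
    have h3 : k0 E hEE = k0 P hPP := by
      refine hK0E (MC φ) _ _ E P hEE hPP (Xm * P) (P * Xi) ?_ ?_
      · calc Xm * P * (P * Xi) = Xm * (P * P) * Xi := by simp only [mul_assoc]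
          _ = E := by rw [hPP]
      · calc P * Xi * (Xm * P) = P * (Xi * Xm) * P := by simp only [mul_assoc]
          _ = P := by rw [hXX', mul_one, hPP]
    rw [h1, h3, KR1_k0P hK0B, sub_self]
  · -- the holonomy
    rw [map_sub, map_nsmul, hFUN.2.2.1, map_sub, map_nsmul, KR1_unit hK0B hK1M D de hde, smul_zero, sub_zero]
    have hm : F.map (vL D).toRingHom * F.map (vL D).toRingHom = F.map (vL D).toRingHom := by
      rw [← Matrix.map_mul, hF]
    rw [k0map_k0 (vL D).toRingHom F hF hm]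
    obtain ⟨W, hW⟩ := pthM φ Xm
    obtain ⟨W', hW'⟩ := pthM φ Xi
    set PD := KR1_P D n with hPD
    have hPDD : PD * PD = PD := KR1_PP D n
    have hev : ∀ t, evM (F.map (vL D).toRingHom) t = F.map (pL D t) := fun t => evM_val F t
    have hF0' : F.map (pL D 0) = PD := by rw [hF0, KR1_Pmap]
    have hW0 : W 0 = 1 := by rw [hW, hX0]
    have hWW : ∀ s, W s * W' s = 1 := by
      intro s
      rw [hW, hW', hs1]
    have hWW' : ∀ s, W' s * W s = 1 := by
      intro s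
      rw [hW, hW', hs2]
    have hX1 : W 1 = Matrix.fromBlocks ((u : Matrix (Fin n) (Fin n) C).map φ) 0 0
        (((u⁻¹ : (Matrix (Fin n) (Fin n) C)ˣ) : Matrix (Fin n) (Fin n) C).map φ) := by
      rw [hW, (endM φ χ Xm).2, hXg, Matrix.fromBlocks_map, Matrix.map_zero _ (map_zero φ)]
    have hφu : (u : Matrix (Fin n) (Fin n) C).map φ *
        (((u⁻¹ : (Matrix (Fin n) (Fin n) C)ˣ) : Matrix (Fin n) (Fin n) C).map φ) = 1 := by
      rw [← KR1_mm, hug, KR1_one]
    have hφu' : (((u⁻¹ : (Matrix (Fin n) (Fin n) C)ˣ) : Matrix (Fin n) (Fin n) C).map φ) *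
        (u : Matrix (Fin n) (Fin n) C).map φ = 1 := by
      rw [← KR1_mm, hug', KR1_one]
    let g : (Matrix (Fin n ⊕ Fin n) (Fin n ⊕ Fin n) D)ˣ :=
      ⟨Matrix.fromBlocks ((u : Matrix (Fin n) (Fin n) C).map φ) 0 0 1,
        Matrix.fromBlocks (((u⁻¹ : (Matrix (Fin n) (Fin n) C)ˣ) : Matrix (Fin n) (Fin n) C).map φ) 0 0 1,
        by rw [Matrix.fromBlocks_multiply, hφu]; simp [Matrix.fromBlocks_one],
        by rw [Matrix.fromBlocks_multiply, hφu']; simp [Matrix.fromBlocks_one]⟩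
    have hgv : (g : Matrix (Fin n ⊕ Fin n) (Fin n ⊕ Fin n) D)
        = Matrix.fromBlocks ((u : Matrix (Fin n) (Fin n) C).map φ) 0 0 1 := rfl
    have hV : Continuous fun s => W s * PD := W.continuous.matrix_mul continuous_const
    have hV' : Continuous fun s => PD * W' s := continuous_const.matrix_mul W'.continuous
    have h1 := hde (Fin n ⊕ Fin n) (F.map (vL D).toRingHom) hm ⟨fun s => W s * PD, hV⟩ ⟨fun s => PD * W' s, hV'⟩ g
      ⟨by
        rw [hev, hF0']
        show W 0 * PD = PD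
        rw [hW0, one_mul],
      fun s => by
        rw [hev, hF0']
        show PD * W' s * (W s * PD) = PD
        rw [mul_assoc, ← mul_assoc (W' s), hWW', one_mul, hPDD],
      fun s => by
        rw [hev]
        show W s * PD * (PD * W' s) = _
        rw [mul_assoc, ← mul_assoc PD, hPDD, ← mul_assoc, hW, hW', ← hEs, ← hFj]
        exact (jmM φ χ F).1 s,
      fun s => by
        rw [hev, hF0']
        show W s * PD * PD = W s * PD
        rw [mul_assoc, hPDD],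
      fun s => by
        rw [hev, hF0']
        show PD * (PD * W' s) = PD * W' s
        rw [← mul_assoc, hPDD]⟩
      (by
        rw [hev, hF0', hgv]
        show _ = W 1 * PD + (1 - PD)
        rw [hX1, hPD]
        unfold KR1_P
        rw [Matrix.fromBlocks_multiply, ← Matrix.fromBlocks_one, sub_eq_add_neg, Matrix.fromBlocks_neg,
          Matrix.fromBlocks_add, Matrix.fromBlocks_add]
        simp)
    rw [h1]
    have h2 := hK1B D (Fin n) (Fin n) (umap φ.toRingHom u) 1 g (by rw [hgv]; rfl)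
    rw [h2, (hK1M D (Fin n) 1 1).2.2.1, add_zero]
    exact (k1map_k1 φ.toRingHom hφ u).symm

end Pool.Agent.PV
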