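import Pool.Agent.helper53.PV.SpecD

set_option autoImplicit false

open scoped Topology
open MeasureTheory Filter

namespace Pool.Agent.PV

open Pool.Agent.CZ

theorem DFN_up {A A₀ : Type} [CStarAlgebra A] [CStarAlgebra A₀] (Φ : A₀ →⋆ₐ[ℂ] A) (u₀ : unitary A₀)
    (u : unitary A) (h : Φ (u₀ : A₀) = u) : ∀ k : ℤ, Φ (up u₀ k) = up u k := by
  have hinv : Φ ((u₀⁻¹ : unitary A₀) : A₀) = ((u⁻¹ : unitary A) : A) := by
    rw [← Unitary.star_eq_inv, ← Unitary.star_eq_inv, Unitary.coe_star, Unitary.coe_star, map_star, h]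
  intro k
  induction k using Int.induction_on with
  | zero =>
    unfold up
    rw [zpow_zero, zpow_zero]
    simp only [OneMemClass.coe_one, map_one]
  | succ i ih =>
    unfold up at ih ⊢
    rw [zpow_add_one, zpow_add_one, Submonoid.coe_mul, Submonoid.coe_mul, map_mul, ih, h]
  | pred i ih =>
    unfold up at ih ⊢
    rw [zpow_sub_one, zpow_sub_one, Submonoid.coe_mul, Submonoid.coe_mul, map_mul, ih, hinv]

theorem DFN : DFN_stmt := by
  intro X X₀ _ _ _ _ α α₀ π hπ A A₀ _ _ ι u c ι₀ u₀ c₀ hC hC₀ hX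
  have hsym : ∀ x, π (α.symm x) = α₀.symm (π x) := by
    intro x
    apply α₀.injective
    rw [← hπ, α.apply_symm_apply, α₀.apply_symm_apply]
  obtain ⟨Φ, hΦ1, hΦ2⟩ := hX.univ A (ι.comp (ContinuousMap.compStarAlgHom' ℂ ℂ π)) u (by
    intro f
    have h1 : (ι.comp (ContinuousMap.compStarAlgHom' ℂ ℂ π)) f = ι (f.comp π) := rfl
    have h2 : (ι.comp (ContinuousMap.compStarAlgHom' ℂ ℂ π)) (f.comp (α₀.symm : C(X₀, X₀)))
        = ι ((f.comp π).comp (α.symm : C(X, X))) := by
      show ι ((f.comp (α₀.symm : C(X₀, X₀))).comp π) = _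
      congr 1
      ext x
      show f (α₀.symm (π x)) = f (π (α.symm x))
      rw [hsym]
    rw [h1, h2]
    exact hC.cov _)
  have hΦ1' : ∀ f, Φ (ι₀ f) = ι (f.comp π) := fun f => hΦ1 f
  refine ⟨Φ, hΦ1', hΦ2, ?_⟩
  intro n
  have hup := DFN_up Φ u₀ u hΦ2
  have cΦ : Continuous Φ := by
    refine AddMonoidHomClass.continuous_of_bound Φ 1 ?_
    intro x
    rw [one_mul]
    exact NonUnitalStarAlgHom.norm_apply_le Φ x
  have cc : Continuous (c n) :=
    AddMonoidHomClass.continuous_of_bound (c n) 1 (fun a => by rw [one_mul]; exact hC.cnorm n a)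
  have cc₀ : Continuous (c₀ n) :=
    AddMonoidHomClass.continuous_of_bound (c₀ n) 1 (fun a => by rw [one_mul]; exact hC₀.cnorm n a)
  have c1 : Continuous fun x => c n (Φ x) := cc.comp cΦ
  have c2 : Continuous fun x => (c₀ n x).comp π := (ContinuousMap.continuous_precomp π).comp cc₀
  have hEq : (fun x => c n (Φ x)) = fun x => (c₀ n x).comp π := by
    refine Continuous.ext_on hC₀.dense c1 c2 ?_
    intro x hx
    have hx' : x ∈ Submodule.span ℂ {a : A₀ | ∃ (f : C(X₀, ℂ)) (n : ℤ),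
      a = ι₀ f * ((u₀ ^ n : unitary A₀) : A₀)} := hx
    show c n (Φ x) = (c₀ n x).comp π
    refine Submodule.span_induction (p := fun x _ => c n (Φ x) = (c₀ n x).comp π) ?_ ?_ ?_ ?_ hx'
    · rintro a ⟨f, k, rfl⟩
      have h1 : Φ (ι₀ f * ((u₀ ^ k : unitary A₀) : A₀)) = ι (f.comp π) * up u k := by
        rw [map_mul, hΦ1', ← hup k]
        rfl
      have h2 : c₀ n (ι₀ f * ((u₀ ^ k : unitary A₀) : A₀)) = if n = k then f else 0 := hC₀.cval n k f
      rw [h1, h2, hC.cval]
      by_cases hnk : n = k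
      · rw [if_pos hnk, if_pos hnk]
      · rw [if_neg hnk, if_neg hnk]
        rfl
    · rw [map_zero, map_zero, map_zero]
      rfl
    · intro a b _ _ ha hb
      rw [map_add, map_add, map_add, ha, hb]
      rfl
    · intro r a _ ha
      rw [map_smul, map_smul, map_smul, ha]
      rfl
  intro x
  exact congrFun hEq x

end Pool.Agent.PV
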