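import Pool.Agent.helper53.PV.SpecF

set_option autoImplicit false

open scoped Topology
open MeasureTheory Filter

namespace Pool.Agent.PV

open Pool.Agent.CZ

theorem FAX_cl {X₀ Y : Type} [TopologicalSpace X₀] [TopologicalSpace Y] [T1Space X₀] [T2Space Y]
    (α₀ : X₀ ≃ₜ X₀) (x₀ : X₀) (f : X₀ → Y) (hf : ContinuousOn f {x₀}ᶜ) : IsClosed (ESet α₀ x₀ f) := by
  have h1 : ESet α₀ x₀ f =
      ⋂ k : ℤ, {p : X₀ × (ℤ → Y) | (α₀ ^ k) p.1 = x₀ ∨ p.2 k = f ((α₀ ^ k) p.1)} := by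
    ext p
    simp only [ESet, Set.mem_setOf_eq, Set.mem_iInter]
  rw [h1]
  refine isClosed_iInter fun k => ?_
  rw [← isOpen_compl_iff, isOpen_iff_eventually]
  intro p hp
  simp only [Set.mem_compl_iff, Set.mem_setOf_eq, not_or] at hp
  have c1 : Continuous fun q : X₀ × (ℤ → Y) => (α₀ ^ k) q.1 := (α₀ ^ k).continuous.comp continuous_fst
  have c2 : Continuous fun q : X₀ × (ℤ → Y) => q.2 k := (continuous_apply k).comp continuous_snd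
  have e1 : ∀ᶠ q in 𝓝 p, (α₀ ^ k) q.1 ≠ x₀ := c1.continuousAt.eventually_ne hp.1
  have fc : ContinuousAt f ((α₀ ^ k) p.1) := hf.continuousAt (isOpen_compl_singleton.mem_nhds hp.1)
  have e2 : ContinuousAt (fun q : X₀ × (ℤ → Y) => f ((α₀ ^ k) q.1)) p :=
    ContinuousAt.comp (f := fun q : X₀ × (ℤ → Y) => (α₀ ^ k) q.1) (g := f) fc c1.continuousAt
  have e4 : ContinuousAt (fun q : X₀ × (ℤ → Y) => (q.2 k, f ((α₀ ^ k) q.1))) p := c2.continuousAt.prodMk e2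
  have e3 : ∀ᶠ q in 𝓝 p, (q.2 k, f ((α₀ ^ k) q.1)) ∈ (Set.diagonal Y)ᶜ :=
    e4.eventually_mem (isClosed_diagonal.isOpen_compl.mem_nhds hp.2)
  filter_upwards [e1, e3] with q h2 h3
  simp only [Set.mem_compl_iff, Set.mem_setOf_eq, not_or]
  exact ⟨h2, h3⟩

theorem FAX_inv {X₀ : Type} [TopologicalSpace X₀] (α₀ : X₀ ≃ₜ X₀) (φ : InvSt α₀) (u : C(X₀, ℝ)) :
    ∀ k : ℤ, ∀ v : C(X₀, ℝ), (∀ x, v x = u ((α₀ ^ k) x)) → φ.φ v = φ.φ u := by
  intro k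
  induction k using Int.induction_on with
  | zero =>
    intro v hv
    congr 1
    ext x
    rw [hv x, zpow_zero]
    rfl
  | succ i ih =>
    intro v hv
    have h1 := ih (u.comp ((α₀ ^ (i : ℤ) : X₀ ≃ₜ X₀) : C(X₀, X₀))) (fun x => rfl)
    rw [← h1, ← φ.inv (u.comp ((α₀ ^ (i : ℤ) : X₀ ≃ₜ X₀) : C(X₀, X₀)))]
    congr 1
    ext x
    rw [hv x]
    show u ((α₀ ^ ((i : ℤ) + 1)) x) = u ((α₀ ^ (i : ℤ)) (α₀ x))
    rw [zpow_succ_apply]
  | pred i ih =>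
    intro v hv
    rw [← φ.inv v]
    refine ih _ ?_
    intro x
    show v (α₀ x) = _
    rw [hv (α₀ x), zpow_succ_apply, sub_add_cancel]

theorem FAX_bd {X : Type} [TopologicalSpace X] (φ : C(X, ℝ) →ₗ[ℝ] ℝ)
    (hpos : ∀ k : C(X, ℝ), (∀ p, 0 ≤ k p) → 0 ≤ φ k) (k l : C(X, ℝ)) (h : ∀ p, |k p| ≤ l p) :
    |φ k| ≤ φ l := by
  have h1 : 0 ≤ φ (l - k) := hpos _ (fun p => by
    have := (abs_le.mp (h p)).2
    show 0 ≤ l p - k p
    linarith)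
  have h2 : 0 ≤ φ (l + k) := hpos _ (fun p => by
    have := (abs_le.mp (h p)).1
    show 0 ≤ l p + k p
    linarith)
  rw [map_sub] at h1
  rw [map_add] at h2
  rw [abs_le]
  constructor <;> linarith

theorem FAX (hFNU : FNU_stmt) (hFSW : FSW_stmt) (hFDE : FDE_stmt) (hFID : FID_stmt) : FAX_stmt := by
  intro X₀ Y _ _ _ _ _ _ α₀ x₀ f hf hfree g ε hε
  haveI : CompactSpace (ESp α₀ x₀ f) := isCompact_iff_compactSpace.mp (FAX_cl α₀ x₀ f hf).isCompact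
  obtain ⟨S, g', hS, hg'⟩ := hFSW X₀ Y α₀ x₀ f hf
    ⟨fun p => ((g p : ℝ) : ℂ), Complex.continuous_ofReal.comp g.continuous⟩ (ε / 2) (by positivity)
  set gr : C(ESp α₀ x₀ f, ℝ) := reC g' with hgr
  have hgrv : ∀ p, gr p = (g' p).re := fun p => rfl
  have hgr1 : ∀ p, |g p - gr p| ≤ ε / 2 := by
    intro p
    have h1 := hg' p
    have h2 : g p - gr p = (((g p : ℝ) : ℂ) - g' p).re := by
      rw [Complex.sub_re, Complex.ofReal_re, hgrv]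
    rw [h2]
    exact (Complex.abs_re_le_norm _).trans h1
  have hM : ∀ p, |gr p| ≤ ‖gr‖ := by
    intro p
    have := ContinuousMap.norm_coe_le_norm gr p
    rwa [Real.norm_eq_abs] at this
  set M : ℝ := ‖gr‖ with hMdef
  have hM0 : 0 ≤ M := norm_nonneg _
  have hden : 0 < 2 * (M + 1) * ((S.card : ℝ) + 1) := by positivity
  obtain ⟨h, hh, hh1, hhφ⟩ := hFNU X₀ α₀ x₀ hfree (ε / (2 * (M + 1) * ((S.card : ℝ) + 1))) (div_pos hε hden)
  have hx0 : h x₀ = 1 := hh1.self_of_nhds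
  have hsumc : ∀ k : ℤ, Continuous fun x => h ((α₀ ^ k) x) := fun k => h.continuous.comp (α₀ ^ k).continuous
  set H : C(X₀, ℝ) := ⟨fun x => min 1 (∑ k ∈ S, h ((α₀ ^ k) x)),
    continuous_const.min (continuous_finset_sum _ (fun k _ => hsumc k))⟩ with hH
  have hHv : ∀ x, H x = min 1 (∑ k ∈ S, h ((α₀ ^ k) x)) := fun x => rfl
  have hH0 : ∀ x, 0 ≤ H x := by
    intro x
    rw [hHv]
    exact le_min zero_le_one (Finset.sum_nonneg fun k _ => (hh _).1)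
  have hH1 : ∀ k ∈ S, H ((α₀ ^ (-k)) x₀) = 1 := by
    intro k hk
    rw [hHv, min_eq_left]
    have h1 : h ((α₀ ^ k) ((α₀ ^ (-k)) x₀)) = 1 := by
      rw [zpow_zpow_apply, add_neg_cancel, zpow_zero]
      exact hx0
    calc (1 : ℝ) = h ((α₀ ^ k) ((α₀ ^ (-k)) x₀)) := h1.symm
      _ ≤ ∑ j ∈ S, h ((α₀ ^ j) ((α₀ ^ (-k)) x₀)) :=
        Finset.single_le_sum (f := fun j => h ((α₀ ^ j) ((α₀ ^ (-k)) x₀))) (fun j _ => (hh _).1) hk
  obtain ⟨_, _, _, _, hid5, _⟩ := hFID X₀ Y α₀ x₀ f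
  set Hp : C(ESp α₀ x₀ f, ℝ) := H.comp (ePr α₀ x₀ f) with hHp
  have hHpv : ∀ p, Hp p = H (ePr α₀ x₀ f p) := fun p => rfl
  obtain ⟨g₀, hg₀⟩ := hFDE X₀ Y α₀ x₀ f hf hfree ℝ ((1 - Hp) * gr) (by
    intro k y y'
    show (1 - Hp (eIn α₀ x₀ f k y)) * gr (eIn α₀ x₀ f k y) = (1 - Hp (eIn α₀ x₀ f k y')) * gr (eIn α₀ x₀ f k y')
    rw [hHpv, hHpv, hid5, hid5]
    by_cases hk : k ∈ S
    · rw [hH1 k hk]
      ring
    · rw [hgrv, hgrv, hS k hk y y'])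
  refine ⟨g₀, ?_⟩
  intro φ φ₀ hpos hφ
  have hG : φ₀.φ g₀ = φ ((1 - Hp) * gr) := by
    rw [← hφ g₀]
    congr 1
    ext p
    exact (hg₀ p).symm
  have hone : φ 1 = 1 := by
    have h1 := hφ 1
    rw [φ₀.one] at h1
    rw [← h1]
    congr 1
  have hdec : φ g - φ₀.φ g₀ = φ (g - gr) + φ (Hp * gr) := by
    rw [hG, ← map_sub, ← map_add]
    congr 1
    ext p
    show g p - (1 - Hp p) * gr p = g p - gr p + Hp p * gr p
    ring
  have hb1 : |φ (g - gr)| ≤ ε / 2 := by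
    have h1 := FAX_bd φ hpos (g - gr) ((ε / 2) • (1 : C(ESp α₀ x₀ f, ℝ))) (by
      intro p
      have h2 : ((ε / 2) • (1 : C(ESp α₀ x₀ f, ℝ))) p = ε / 2 := by
        show (ε / 2) * 1 = ε / 2
        ring
      rw [h2]
      exact hgr1 p)
    rw [map_smul, hone, smul_eq_mul, mul_one] at h1
    exact h1
  have hHφ : φ₀.φ H ≤ (S.card : ℝ) * φ₀.φ h := by
    have h1 : (S.card : ℝ) * φ₀.φ h = φ₀.φ (∑ k ∈ S, (⟨fun x => h ((α₀ ^ k) x), hsumc k⟩ : C(X₀, ℝ))) := by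
      rw [map_sum, Finset.sum_congr rfl (fun k _ => FAX_inv α₀ φ₀ h k
        (⟨fun x => h ((α₀ ^ k) x), hsumc k⟩ : C(X₀, ℝ)) (fun x => rfl)), Finset.sum_const, nsmul_eq_mul]
    have h2 : 0 ≤ φ₀.φ ((∑ k ∈ S, (⟨fun x => h ((α₀ ^ k) x), hsumc k⟩ : C(X₀, ℝ))) - H) := by
      refine φ₀.nonneg _ ?_
      intro x
      have h3 : ((∑ k ∈ S, (⟨fun x => h ((α₀ ^ k) x), hsumc k⟩ : C(X₀, ℝ))) - H) x
          = (∑ k ∈ S, h ((α₀ ^ k) x)) - H x := by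
        rw [ContinuousMap.sub_apply, ContinuousMap.sum_apply]
        rfl
      rw [h3, hHv]
      have := min_le_right 1 (∑ k ∈ S, h ((α₀ ^ k) x))
      linarith
    rw [map_sub] at h2
    rw [h1]
    linarith
  have hb2 : |φ (Hp * gr)| ≤ ε / 2 := by
    have h1 := FAX_bd φ hpos (Hp * gr) (M • Hp) (by
      intro p
      have h2 : (M • Hp) p = M * Hp p := rfl
      have h3 : (Hp * gr) p = Hp p * gr p := rfl
      rw [h2, h3, abs_mul, abs_of_nonneg (show 0 ≤ Hp p from hH0 _), mul_comm M]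
      exact mul_le_mul_of_nonneg_left (hM p) (hH0 _))
    rw [map_smul, smul_eq_mul, hφ H] at h1
    refine h1.trans ?_
    have hφh : φ₀.φ h ≤ ε / (2 * (M + 1) * ((S.card : ℝ) + 1)) := hhφ φ₀
    have hφh0 : 0 ≤ φ₀.φ h := φ₀.nonneg _ (fun x => (hh x).1)
    have h4 : M * φ₀.φ H ≤ (M + 1) * (((S.card : ℝ) + 1) * φ₀.φ h) := by
      have h5 : φ₀.φ H ≤ ((S.card : ℝ) + 1) * φ₀.φ h := hHφ.trans (by nlinarith)
      have h6 : 0 ≤ φ₀.φ H := φ₀.nonneg _ hH0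
      calc M * φ₀.φ H ≤ (M + 1) * φ₀.φ H := by nlinarith
        _ ≤ (M + 1) * (((S.card : ℝ) + 1) * φ₀.φ h) := mul_le_mul_of_nonneg_left h5 (by linarith)
    refine h4.trans ?_
    calc (M + 1) * (((S.card : ℝ) + 1) * φ₀.φ h)
        ≤ (M + 1) * (((S.card : ℝ) + 1) * (ε / (2 * (M + 1) * ((S.card : ℝ) + 1)))) := by
          refine mul_le_mul_of_nonneg_left (mul_le_mul_of_nonneg_left hφh (by positivity)) (by linarith)
      _ = ε / 2 := by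
          have hM1 : M + 1 ≠ 0 := by linarith
          have hS1 : (S.card : ℝ) + 1 ≠ 0 := by positivity
          field_simp
  rw [hdec]
  calc |φ (g - gr) + φ (Hp * gr)| ≤ |φ (g - gr)| + |φ (Hp * gr)| := abs_add_le _ _
    _ ≤ ε / 2 + ε / 2 := add_le_add hb1 hb2
    _ = ε := by ring

end Pool.Agent.PV
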