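import Pool.Agent.helper72.PV.SpecH

set_option autoImplicit false

open Finset

namespace Pool.Agent.PVH

open Pool.Agent.PV Pool.Agent.CZ

theorem SHC_claim (hSHS : SHS_stmt) (H : Type) [AddCommGroup H] (P : H → Prop) (g : H) (hS : SOG P g) :
    ∀ k c : ℕ, ∀ (L : Type) [Fintype L] (θ : L → H), (∀ l, P (θ l)) → ∀ z : L → ℤ,
      ∑ l, z l • θ l = 0 → (∀ l, |z l| ≤ (k : ℤ)) → (univ.filter fun l => |z l| = (k : ℤ)).card ≤ c →
      ∃ (L' : Type) (_ : Fintype L') (θ' : L' → H) (A : L → L' → ℕ), Ref P θ θ' A ∧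
        ∀ l', ∑ l, z l * (A l l' : ℤ) = 0 := by
  classical
  intro k
  induction k with
  | zero =>
    intro c L _ θ hθ z _ hk _
    refine ⟨L, inferInstance, θ, fun l i => if l = i then 1 else 0, Ref.id hθ, ?_⟩
    intro l'
    refine Finset.sum_eq_zero ?_
    intro l _
    have h1 : z l = 0 := by
      have := hk l
      rw [Nat.cast_zero] at this
      exact abs_nonpos_iff.mp this
    rw [h1, zero_mul]
  | succ k ihk =>
    intro c
    induction c with
    | zero =>
      intro L _ θ hθ z hz hk hc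
      refine ihk (Fintype.card L) L θ hθ z hz ?_ (Finset.card_le_univ _)
      intro l
      have h1 : |z l| ≠ ((k + 1 : ℕ) : ℤ) := by
        intro h
        have h2 : l ∈ univ.filter fun l => |z l| = ((k + 1 : ℕ) : ℤ) := by
          rw [mem_filter]
          exact ⟨mem_univ _, h⟩
        have h3 : (univ.filter fun l => |z l| = ((k + 1 : ℕ) : ℤ)).card = 0 := by omega
        rw [Finset.card_eq_zero] at h3
        rw [h3] at h2
        exact absurd h2 (Finset.notMem_empty l)
      have h4 := hk l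
      push_cast at h1 h4
      omega
    | succ c ihc =>
      intro L _ θ hθ z hz hk hc
      by_cases h : ∃ l₀, |z l₀| = ((k + 1 : ℕ) : ℤ)
      · obtain ⟨l₀, hl₀⟩ := h
        obtain ⟨L', _, θ', A, hRef, hb, hcard⟩ := hSHS H P g hS L θ hθ z ((k + 1 : ℕ) : ℤ) hz
          (by push_cast; omega) hk l₀ hl₀
        obtain ⟨L'', _, θ'', A', hRef', hkill⟩ := ihc L' θ' hRef.pos (fun l' => ∑ l, z l * (A l l' : ℤ))
          (by rw [hRef.rel z]; exact hz) hb (by omega)
        refine ⟨L'', inferInstance, θ'', fun l j => ∑ i, A l i * A' i j, hRef.comp hRef', ?_⟩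
        intro j
        rw [kill_comp z A A' j]
        exact hkill j
      · refine ihk (Fintype.card L) L θ hθ z hz ?_ (Finset.card_le_univ _)
        intro l
        have h1 : |z l| ≠ ((k + 1 : ℕ) : ℤ) := fun h2 => h ⟨l, h2⟩
        have h4 := hk l
        push_cast at h1 h4
        omega

theorem SHC (hSHS : SHS_stmt) : SHC_stmt := by
  intro H _ P g hS L _ θ hθ z hz
  refine SHC_claim hSHS H P g hS (∑ l, (z l).natAbs) (Fintype.card L) L θ hθ z hz ?_ (Finset.card_le_univ _)
  intro l
  have h1 : (z l).natAbs ≤ ∑ l, (z l).natAbs :=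
    Finset.single_le_sum (f := fun l => (z l).natAbs) (fun _ _ => Nat.zero_le _) (mem_univ l)
  rw [Int.abs_eq_natAbs]
  exact_mod_cast h1

end Pool.Agent.PVH
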